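import Pool.Agent.D0H78.QT.Main

/-!
# The index laws over a nondegenerate system of Hodge classes: translation
-/

open CategoryTheory AlgebraicGeometry TensorProduct Filter Topology

open scoped ENNReal

universe u v w

namespace Pool.Agent.D0H78.QT

open Module
open Pool.Agent.H914 Pool.Agent.H914.VarClass Pool.Agent.H914.VarClass.Obj
  Pool.Agent.H914.WeilCohomology Pool.Agent.Y133.Half Pool.Agent.Y121.AH
open Pool.Agent.D0H78.MT hiding GaloisAction IsUniversal SC hact gz_fix isHodge_of_inv Fc F mem_F C_le_F F_stab F_even F_proj F_isHodge F_le_hodge mem_F_of_genS hodge_le_F inv_eq_span finrank_inv F_le_inv mem_bf_of_genS inv_eq_bf hodgeAction isHodge_of_tate Uni F_le_Uni C_le_Uni Uni_stab Uni_even Uni_proj mem_Uni_iff Uni_isHodge Uni_eq_span Uni_le_hodge mot_le_hodge uni_law hodge_law tate_law mem_span_hom spanned_iff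

variable {k : Type u} [Field k] {𝒱 : VarClass k} {ops : CycleOps 𝒱}

section

variable {T : HodgeTheory ops} {Q : ClassPred T.W} {X : 𝒱.Obj} (G : GaloisAction Q X)

/-- Homogeneous members of a span of homogeneous classes. -/
lemma mem_span_hom {n j : ℕ} {P : ℕ → T.W.H (pw X n) → Prop}
    (hP : ∀ i c, P i c → c ∈ T.W.gr (pw X n) (2 * i)) {x : G.V.H (pw X n)}
    (hx : x ∈ G.V.gr (pw X n) (2 * j))
    (h : x ∈ Submodule.span G.V.K {y | ∃ i c, P i c ∧ ext T.W G.L c = y}) :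
    x ∈ Submodule.span G.V.K {y | ∃ c, P j c ∧ ext T.W G.L c = y} := by
  have key : ∀ y ∈ Submodule.span G.V.K {y | ∃ i c, P i c ∧ ext T.W G.L c = y},
      H914.proj (G.V.isInternal (pw X n)) (2 * j) y ∈
        Submodule.span G.V.K {y | ∃ c, P j c ∧ ext T.W G.L c = y} := by
    intro y hy
    induction hy using Submodule.span_induction with
    | mem y hy =>
      obtain ⟨i, c, hc, rfl⟩ := hy
      have hg : ext T.W G.L c ∈ G.V.gr (pw X n) (2 * i) := em_gr (hP i c hc)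
      by_cases hij : i = j
      · subst hij
        rw [proj_same _ hg]
        exact Submodule.subset_span ⟨c, hc, rfl⟩
      · rw [proj_ne _ hg (by omega)]
        exact Submodule.zero_mem _
    | zero => rw [map_zero]; exact Submodule.zero_mem _
    | add a b _ _ ha hb => rw [map_add]; exact Submodule.add_mem _ ha hb
    | smul r a _ ha => rw [map_smul]; exact Submodule.smul_mem _ r ha
  have := key x h
  rwa [proj_same _ hx] at this

/-- The criterion for the Tate classes to be spanned by classes with some property. -/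
lemma spanned_iff {P : ∀ n, ℕ → T.W.H (pw X n) → Prop}
    (hP : ∀ n i c, P n i c → c ∈ T.W.gr (pw X n) (2 * i))
    (hT : ∀ n i c, P n i c → G.IsTate n i (ext T.W G.L c)) :
    (∀ n, G.act.inv n = Submodule.span G.V.K {y | ∃ i c, P n i c ∧ ext T.W G.L c = y}) ↔
      ∀ n j x, G.IsTate n j x ↔
        x ∈ Submodule.span G.V.K {y | ∃ c, P n j c ∧ ext T.W G.L c = y} := by
  constructor
  · intro h n j x
    constructor
    · intro hx
      obtain ⟨h1, h2⟩ := G.isTate_iff.1 hx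
      rw [h n] at h2
      exact mem_span_hom G (hP n) h1 h2
    · intro hx
      refine G.isTate_iff.2 ⟨?_, ?_⟩
      · refine (Submodule.span_le.2 ?_) hx
        rintro _ ⟨c, hc, rfl⟩
        exact em_gr (hP n j c hc)
      · refine (Submodule.span_le.2 ?_) hx
        rintro _ ⟨c, hc, rfl⟩
        exact (G.isTate_iff.1 (hT n j c hc)).2
  · intro h n
    apply le_antisymm
    · rw [inv_eq_span, Submodule.span_le]
      rintro x ⟨j, hx⟩
      refine (Submodule.span_mono ?_) ((h n j x).1 hx)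
      rintro _ ⟨c, hc, rfl⟩
      exact ⟨j, c, hc, rfl⟩
    · rw [Submodule.span_le]
      rintro _ ⟨i, c, hc, rfl⟩
      exact (G.isTate_iff.1 (hT n i c hc)).2

end

section

variable {T : HodgeTheory ops} {Q : ClassPred T.W} (hQ : LeHodge T Q) {X : 𝒱.Obj}

include hQ in
lemma finrank_Uni (n : ℕ) : finrank T.W.K (Uni T Q X n) =
    dimOf T.W {x | ∃ j, IsUniversal Q X n j x} := by
  rw [Uni_eq_span hQ]; rfl

include hQ in
lemma universal_of {n j : ℕ} {x : T.W.H (pw X n)}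
    (h : Q.P (pw X n) j x) : IsUniversal Q X n j x :=
  (mem_Uni_iff hQ).1 ⟨Q.gr h, C_le_Uni hQ n (ClassPred.sp_of (Q := Q) h)⟩

include hQ in
lemma hodge_of_universal {n j : ℕ} {x : T.W.H (pw X n)}
    (h : IsUniversal Q X n j x) : IsHodge T (pw X n) j x :=
  have h1 := (mem_Uni_iff hQ).2 h
  Uni_isHodge hQ h1.2 h1.1

include hQ in
lemma Uni_eq_C_iff (n : ℕ) : Uni T Q X n = Q.sys.C (pw X n) ↔
    ∀ j x, IsUniversal Q X n j x → Q.P (pw X n) j x := by
  constructor
  · intro h j x hx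
    have h1 := (mem_Uni_iff hQ).2 hx
    have h2 := h1.2
    rw [h] at h2
    exact ClassPred.of_sp (Q := Q) h2 h1.1
  · intro h
    refine le_antisymm ?_ (C_le_Uni hQ n)
    rw [Uni_eq_span hQ, Submodule.span_le]
    rintro x ⟨j, hx⟩
    exact ClassPred.sp_of (Q := Q) (h j x hx)

lemma C_eq_span (n : ℕ) : Q.sys.C (pw X n) =
    Submodule.span T.W.K {x | ∃ j, Q.P (pw X n) j x} := rfl

lemma set_eq {n : ℕ} {L : Type} [Field L] [Algebra T.W.K L] (P : ℕ → T.W.H (pw X n) → Prop) :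
    {y | ∃ c ∈ {x | ∃ j, P j x}, ext T.W L c = y} = {y | ∃ i c, P i c ∧ ext T.W L c = y} := by
  ext y
  constructor
  · rintro ⟨c, ⟨j, h⟩, rfl⟩; exact ⟨j, c, h, rfl⟩
  · rintro ⟨j, c, h, rfl⟩; exact ⟨c, ⟨j, h⟩, rfl⟩

lemma SL_C_eq (G : GaloisAction Q X) (n : ℕ) : G.SL.C (pw X n) =
    Submodule.span G.V.K {y | ∃ i c, Q.P (pw X n) i c ∧ ext T.W G.L c = y} := by
  rw [← set_eq (fun i c => Q.P (pw X n) i c)]
  exact bf_span (n := n) {x | ∃ j, Q.P (pw X n) j x}
    (fun n => Q.sys.C (pw X n)) (C_eq_span n)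

include hQ in
lemma bf_Uni_eq (G : GaloisAction Q X) (n : ℕ) : Sys.bf G.L (Uni T Q X) n =
    Submodule.span G.V.K {y | ∃ i c, IsUniversal Q X n i c ∧ ext T.W G.L c = y} := by
  rw [← set_eq (fun i c => IsUniversal Q X n i c)]
  exact bf_span (n := n) _ (Uni T Q X) (Uni_eq_span hQ n)

include hQ in
lemma inv_eq_SL_iff (G : GaloisAction Q X) : (∀ n, G.act.inv n = G.SL.C (pw X n)) ↔
    G.TateAre fun n j c => Q.P (pw X n) j c := by
  simp only [SL_C_eq]
  exact spanned_iff G (P := fun n j c => Q.P (pw X n) j c)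
    (fun n i c h => Q.gr h) (fun n i c h => universal_of hQ h G)

include hQ in
lemma inv_eq_bf_iff (G : GaloisAction Q X) :
    (∀ n, G.act.inv n = Sys.bf G.L (Uni T Q X) n) ↔ G.TateAre (IsUniversal Q X) := by
  simp only [bf_Uni_eq hQ]
  exact spanned_iff G (P := IsUniversal Q X)
    (fun n i c h => ((mem_Uni_iff hQ).2 h).1) (fun n i c h => h G)

lemma cls_pos [Nontrivial (T.W.H X)] (n : ℕ) : dimBy T.W Q.P (pw X n) ≠ 0 :=
  (Sys.finrank_pos_pw Q.sys n).ne'

end

/-- The index law for one Hodge theory and a nondegenerate system of Hodge classes. -/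
theorem main {T : HodgeTheory ops} {Q : ClassPred T.W} (hQ : LeHodge T Q) (X : 𝒱.Obj)
    [Nontrivial (T.W.H X)] (hnd : ∀ n, Q.sys.Nondeg (pw X n)) (h u m : ℕ → ℕ)
    (hh : ∀ n, h n = dimBy T.W (IsHodge T) (pw X n))
    (hu : ∀ n, u n = dimOf T.W {x | ∃ j, IsUniversal Q X n j x})
    (hm : ∀ n, m n = dimBy T.W Q.P (pw X n)) :
    ∃ c N : ℕ∞, 1 ≤ c ∧ 1 ≤ N ∧ HasIndex u m c ∧ HasIndex h m N ∧ (N = c ∨ N = ⊤) ∧
      (c = 1 ↔ ∀ n j x, IsUniversal Q X n j x → Q.P (pw X n) j x) ∧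
      (N = 1 ↔ ∀ n j x, IsHodge T (pw X n) j x → Q.P (pw X n) j x) ∧
      (N ≠ ⊤ → ∀ n j x, IsHodge T (pw X n) j x → IsUniversal Q X n j x) ∧
      ∀ G : GaloisAction Q X, ∃ N' : ℕ∞, 1 ≤ N' ∧ HasIndex G.tateDim m N' ∧ (N' = c ∨ N' = ⊤) ∧
        (N' = 1 ↔ G.TateAre fun n j x => Q.P (pw X n) j x) ∧
        (N' ≠ ⊤ → G.TateAre (IsUniversal Q X)) ∧
        (N ≠ ⊤ → N' ≠ ⊤ → G.TateAre fun n j x => IsHodge T (pw X n) j x) := by
  obtain rfl : h = fun n => dimBy T.W (IsHodge T) (pw X n) := funext hh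
  obtain rfl : u = fun n => dimOf T.W {x | ∃ j, IsUniversal Q X n j x} := funext hu
  obtain rfl : m = fun n => dimBy T.W Q.P (pw X n) := funext hm
  obtain ⟨c, hc1, hc, hc2, hc3⟩ := uni_law hQ X hnd
  obtain ⟨N, hN1, hN, hNc, hN2, hN3⟩ := hodge_law hQ X hnd hc
  have hc' : HasIndex (fun n => dimOf T.W {x | ∃ j, IsUniversal Q X n j x})
      (fun n => dimBy T.W Q.P (pw X n)) c := by
    have h1 : (fun n => finrank T.W.K (Uni T Q X n)) =
        fun n => dimOf T.W {x | ∃ j, IsUniversal Q X n j x} := funext (finrank_Uni hQ)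
    rw [← h1]
    exact hc
  have hHU : N ≠ ⊤ → ∀ n j x, IsHodge T (pw X n) j x → IsUniversal Q X n j x := by
    intro hN' n j x hx
    have h1 : x ∈ Uni T Q X n := by
      rw [← hN3 hN' n]
      exact ClassPred.sp_of (Q := hodgePred T) hx
    exact (mem_Uni_iff hQ).1 ⟨hx.1, h1⟩
  refine ⟨c, N, hc1, hN1, hc', hN, hNc, ?_, hN2, hHU, ?_⟩
  · rw [hc2]
    exact forall_congr' fun n => Uni_eq_C_iff hQ n
  · intro G
    obtain ⟨N', h1, h2, h3, h4, h5⟩ := tate_law hQ hnd G hc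
    have h6 : N' ≠ ⊤ → G.TateAre (IsUniversal Q X) := fun h => (inv_eq_bf_iff hQ G).1 (h5 h)
    refine ⟨N', h1, h2, h3, ?_, fun h => h6 h, ?_⟩
    · rw [h4]
      exact inv_eq_SL_iff hQ G
    · intro hN' hN''
      have h8 := h6 hN''
      intro n j x
      rw [h8 n j x]
      have h9 : {y | ∃ c, IsUniversal Q X n j c ∧ ext T.W G.L c = y} =
          {y | ∃ c, IsHodge T (pw X n) j c ∧ ext T.W G.L c = y} := by
        ext y
        constructor
        · rintro ⟨c, hc, rfl⟩; exact ⟨c, hodge_of_universal hQ hc, rfl⟩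
        · rintro ⟨c, hc, rfl⟩; exact ⟨c, hHU hN' n j c hc, rfl⟩
      rw [h9]

end Pool.Agent.D0H78.QT
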