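import Pool.Agent.D0H78.QT.Final
import Pool.Agent.R940.HMain
import Pool.Agent.Y133.Half.HRPred
import Pool.Agent.Y133.Half.Index

/-!
# The index laws over the algebraic classes
-/

open CategoryTheory AlgebraicGeometry TensorProduct Filter Topology

open scoped ENNReal

universe u v w

namespace Pool.Agent.D0H78.QT

open Module
open Pool.Agent.H914 Pool.Agent.H914.VarClass Pool.Agent.H914.VarClass.Obj
  Pool.Agent.H914.WeilCohomology Pool.Agent.Y133.Half Pool.Agent.Y121.AH Pool.Agent.H281R3.HT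
  Pool.Agent.W458.MF Pool.Agent.W536.RR
open Pool.Agent.D0H78.MT hiding GaloisAction IsUniversal SC hact gz_fix isHodge_of_inv Fc F mem_F C_le_F F_stab F_even F_proj F_isHodge F_le_hodge mem_F_of_genS hodge_le_F inv_eq_span finrank_inv F_le_inv mem_bf_of_genS inv_eq_bf hodgeAction isHodge_of_tate Uni F_le_Uni C_le_Uni Uni_stab Uni_even Uni_proj mem_Uni_iff Uni_isHodge Uni_eq_span Uni_le_hodge mot_le_hodge uni_law hodge_law tate_law mem_span_hom spanned_iff

variable {k : Type u} [Field k] {𝒱 : VarClass k} {ops : CycleOps 𝒱}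

/-- The algebraic classes. -/
noncomputable def algPred (W : WeilCohomology.{u, v} ops) : ClassPred W where
  P X j c := c ∈ algSpan W X ∧ c ∈ W.gr X (2 * j)
  gr h := h.2
  zero := ⟨Submodule.zero_mem _, Submodule.zero_mem _⟩
  add ha hb := ⟨Submodule.add_mem _ ha.1 hb.1, Submodule.add_mem _ ha.2 hb.2⟩
  smul r _ ha := ⟨Submodule.smul_mem _ r ha.1, Submodule.smul_mem _ r ha.2⟩
  cl {X j z} hz := ⟨Submodule.subset_span (Set.mem_iUnion.2 ⟨j, z, hz, rfl⟩), W.cl_mem hz⟩
  mul {X i j a b} ha hb := ⟨algSpan_mul ha.1 hb.1, by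
    have := W.mul_mem ha.2 hb.2
    rwa [← mul_add] at this⟩
  map f _ _ ha := ⟨algSpan_map f ha.1, W.map_mem f ha.2⟩
  push {X Y} f {j l} hl a ha := ⟨algSpan_push f ha.1, by
    have h := W.push_mem f ha.2
    have e : ((2 * j : ℕ) : ℤ) + 2 * ((Y.dim : ℤ) - X.dim) = ((2 * l : ℕ) : ℤ) := by
      have : (l : ℤ) + X.dim = j + Y.dim := by exact_mod_cast hl
      push_cast
      linarith
    rw [e, grZ_natCast] at h
    exact h⟩

lemma algPred_C (W : WeilCohomology.{u, v} ops) (X : 𝒱.Obj) :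
    (algPred W).sys.C X = algSpan W X :=
  (ClassPred.sp_eq_iff (Q := algPred W) X).2 fun _ _ h =>
    spanCycles_of_algSpan h.1 h.2

variable {T : HodgeTheory ops}

/-- Algebraic classes are classes of cycles. -/
lemma algPred_iff {X : 𝒱.Obj} {j : ℕ} {c : T.W.H X} :
    (algPred T.W).P X j c ↔ ∃ z, X.IsCyc j z ∧ T.W.cl X z = c := by
  constructor
  · intro h
    exact Pool.Agent.R940.exists_cycle T.rat (spanCycles_of_algSpan h.1 h.2)
  · rintro ⟨z, hz, rfl⟩
    exact (algPred T.W).cl hz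

lemma leHodge_alg : LeHodge T (algPred T.W) := by
  intro Z j c h
  obtain ⟨z, hz, rfl⟩ := algPred_iff.1 h
  exact IsHodge.cl hz

lemma nondeg_alg {X : 𝒱.Obj} (h : HomEqNum T.W X) : (algPred T.W).sys.Nondeg X := by
  intro x hx hy
  rw [algPred_C] at hx
  have h1 : x ∈ (algSys T.W).Num X := by
    refine ⟨hx, fun y hy' => hy y ?_⟩
    rw [algPred_C]
    exact hy'
  rw [(homEqNum_iff X).1 h, Submodule.mem_bot] at h1
  exact h1

lemma homEqNum_of_nondeg {X : 𝒱.Obj} (h : (algPred T.W).sys.Nondeg X) : HomEqNum T.W X := by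
  rw [homEqNum_iff, eq_bot_iff]
  rintro c ⟨h1, h2⟩
  rw [Submodule.mem_bot]
  refine h c (by rw [algPred_C]; exact h1) fun y hy => h2 y ?_
  rw [algPred_C] at hy
  exact hy

lemma dimBy_alg {X : 𝒱.Obj} (h : HomEqNum T.W X) :
    dimBy T.W (algPred T.W).P X = cycRank ops X := by
  rw [(homEqNum_iff' X).1 h, ← algPred_C]
  rfl

end Pool.Agent.D0H78.QT
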