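import Pool.Agent.D0H78.MT.Defs
import Pool.Agent.Y133.Half.PredSys

/-!
# Actions which respect a system of classes
-/

open CategoryTheory AlgebraicGeometry TensorProduct

universe u

namespace Pool.Agent.D0H78.QT

open Pool.Agent.H914 Pool.Agent.H914.VarClass Pool.Agent.H914.VarClass.Obj
  Pool.Agent.H914.WeilCohomology Pool.Agent.D0H78.MT
open Pool.Agent.Y133.Half (pw ClassPred)

variable {k : Type u} [Field k] {𝒱 : VarClass k} {ops : CycleOps 𝒱}

/-- An action of a group on the cohomology of all powers of `X`, with coefficients extended to a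
field `L`, which respects the classes with the property `Q`. -/
structure GaloisAction {W : WeilCohomology.{u, 0} ops} (Q : ClassPred W) (X : 𝒱.Obj) where
  /-- the field of coefficients -/
  L : Type
  [field : Field L]
  [alg : Algebra W.K L]
  emb : Nonempty (L →+* ℂ)
  /-- the group -/
  Γ : Type
  [group : Group Γ]
  /-- the cyclotomic character -/
  χ : Γ →* (baseW W L).Kˣ
  /-- the action on the cohomology of the product of `n + 1` copies of `X` -/
  ρ : ∀ n, Γ →* ((baseW W L).H (pw X n) ≃ₐ[(baseW W L).K] (baseW W L).H (pw X n))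
  degree : ∀ g n i, ∀ x ∈ (baseW W L).gr (pw X n) i, ρ n g x ∈ (baseW W L).gr (pw X n) i
  trace : ∀ g n x, (baseW W L).tr (pw X n) (ρ n g x) =
    (χ g : (baseW W L).K) ^ (pw X n).dim * (baseW W L).tr (pw X n) x
  proj : ∀ g n p, IsProj X n p → ∀ x, ρ n g ((baseW W L).map p x) = (baseW W L).map p (ρ 0 g x)
  classes : ∀ g n j c, Q.P (pw X n) j c →
    ρ n g (ext W L c) = (χ g : (baseW W L).K) ^ j • ext W L c

attribute [instance] GaloisAction.field GaloisAction.alg GaloisAction.group

namespace GaloisAction

variable {W : WeilCohomology.{u, 0} ops} {Q : ClassPred W} {X : 𝒱.Obj} (G : GaloisAction Q X)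

/-- The cohomology theory with coefficients in `L`. -/
noncomputable abbrev V : WeilCohomology.{u, 0} ops := baseW W G.L

/-- The Tate classes. -/
def IsTate (n j : ℕ) (x : G.V.H (pw X n)) : Prop :=
  x ∈ G.V.gr (pw X n) (2 * j) ∧ ∃ Δ : Subgroup G.Γ, Δ.FiniteIndex ∧
    ∀ g ∈ Δ, G.ρ n g x = (G.χ g : G.V.K) ^ j • x

/-- The number of linearly independent Tate classes. -/
noncomputable def tateDim (n : ℕ) : ℕ := Set.finrank G.V.K {x | ∃ j, G.IsTate n j x}

/-- The Tate classes are the linear combinations of the classes with the property `P`. -/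
def TateAre (P : ∀ n, ℕ → W.H (pw X n) → Prop) : Prop :=
  ∀ n j x, G.IsTate n j x ↔ x ∈ Submodule.span G.V.K {y | ∃ c, P n j c ∧ ext W G.L c = y}

end GaloisAction

/-- The class is a Tate class for all actions. -/
def IsUniversal {W : WeilCohomology.{u, 0} ops} (Q : ClassPred W) (X : 𝒱.Obj) (n j : ℕ)
    (c : W.H (pw X n)) : Prop :=
  ∀ G : GaloisAction Q X, G.IsTate n j (ext W G.L c)

end Pool.Agent.D0H78.QT
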