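import Pool.Agent.D0H78.QT.Gal2
import Pool.Agent.D0H78.MT.HAct

/-!
# The classes of finite type
-/

open CategoryTheory AlgebraicGeometry TensorProduct

universe u v w

namespace Pool.Agent.D0H78.QT

open Module
open Pool.Agent.H914 Pool.Agent.H914.VarClass Pool.Agent.H914.VarClass.Obj
  Pool.Agent.H914.WeilCohomology Pool.Agent.Y133.Half Pool.Agent.Y121.AH
open Pool.Agent.D0H78.MT hiding GaloisAction IsUniversal SC hact gz_fix isHodge_of_inv Fc F mem_F C_le_F F_stab F_even F_proj F_isHodge F_le_hodge mem_F_of_genS hodge_le_F inv_eq_span finrank_inv F_le_inv mem_bf_of_genS inv_eq_bf hodgeAction isHodge_of_tate Uni F_le_Uni C_le_Uni Uni_stab Uni_even Uni_proj mem_Uni_iff Uni_isHodge Uni_eq_span Uni_le_hodge mot_le_hodge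

variable {k : Type u} [Field k] {𝒱 : VarClass k} {ops : CycleOps 𝒱} {T : HodgeTheory ops}
  {X Y : 𝒱.Obj}

/-- The classes with the property `Q` are Hodge classes. -/
def LeHodge (T : HodgeTheory ops) (Q : ClassPred T.W) : Prop :=
  ∀ {Z : 𝒱.Obj} {j : ℕ} {c : T.W.H Z}, Q.P Z j c → IsHodge T Z j c

/-- The motivated classes with complex coefficients. -/
noncomputable abbrev SC (T : HodgeTheory ops) (Q : ClassPred T.W) : Sys (CW T) := Q.sys.base ℂ

variable {Q : ClassPred T.W}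

lemma gz_fix (hQ : LeHodge T Q) (k : ℤ) {x : (CW T).H X} (hx : x ∈ (SC T Q).C X) : gz T k X x = x := by
  refine base_ind (S := Q.sys) (p := fun x => gz T k X x = x) ?_ ?_ ?_ hx
  · rw [map_zero]
  · intro x y hx hy; rw [map_add, hx, hy]
  · intro l a ha
    rw [map_smul]
    congr 1
    refine ClassPred.sp_ind (Q := Q)
      (q := fun a => gz T k X (em T.W ℂ a) = em T.W ℂ a) ?_ ?_ ?_ ha
    · intro j a ha
      exact gz_hodge k (hQ ha)
    · rw [em_zero, map_zero]
    · intro a b ha hb; rw [em_add, map_add, ha, hb]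

/-- The group of operators given by the Hodge decomposition. -/
noncomputable def hact (hQ : LeHodge T Q) (X : 𝒱.Obj) :
    Act (CW T) (SC T Q) X (Multiplicative ℤ) where
  B g n := gz T (Multiplicative.toAdd g) (pw X n)
  one n x := gz_zero x
  mul g h n x := gz_add _ _ x
  deg g n i x hx := gz_gr _ hx
  fix g n c hc := gz_fix hQ _ hc
  comm g m n f hf x := by
    obtain ⟨z, hz, rfl⟩ := Sys.mem_Op.1 hf
    rw [corr_apply, gz_push, gz_mul, gz_map, gz_fix hQ _ hz, corr_apply]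
  ext g m n x hx y hy := by
    rw [gl, gz_map, xp, gz_mul, gz_map, gz_map, gl, xp]

/-- Rational classes which are fixed by a subgroup of finite index are Hodge classes. -/
lemma isHodge_of_inv (hQ : LeHodge T Q) {n j : ℕ} {c : T.W.H (pw X n)} (hc : c ∈ T.W.gr (pw X n) (2 * j))
    (h : em T.W ℂ c ∈ (hact hQ X).inv n) : IsHodge T (pw X n) j c := by
  obtain ⟨-, Δ, hΔ, h⟩ := h
  refine ⟨hc, ?_⟩
  have h1 : (Multiplicative.ofAdd (1 : ℤ)) ^ Δ.index ∈ Δ := Subgroup.pow_index_mem Δ _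
  have h2 := h _ h1
  have h3 : Multiplicative.toAdd ((Multiplicative.ofAdd (1 : ℤ)) ^ Δ.index) = (Δ.index : ℤ) := by
    rw [toAdd_pow]
    simp
  have h4 : gz T (Δ.index : ℤ) (pw X n) (em T.W ℂ c) = em T.W ℂ c := by
    rw [← h3]
    exact h2
  exact pq_of_fixz (by exact_mod_cast hΔ.index_ne_zero) (T.dec.span hc) h4

/-- The complex classes which are fixed by a subgroup of finite index of every group of operators
which commute with the motivated correspondences. -/
def Fc (T : HodgeTheory ops) (Q : ClassPred T.W) (X : 𝒱.Obj) (n : ℕ) : Submodule (CW T).K ((CW T).H (pw X n)) where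
  carrier := {y | ∀ (Γ : Type) [Group Γ] (A : Act (CW T) (SC T Q) X Γ), y ∈ A.inv n}
  add_mem' ha hb Γ _ A := Submodule.add_mem _ (ha Γ A) (hb Γ A)
  zero_mem' Γ _ A := Submodule.zero_mem _
  smul_mem' r a ha Γ _ A := Submodule.smul_mem _ r (ha Γ A)

/-- The rational classes of finite type. -/
def F (T : HodgeTheory ops) (Q : ClassPred T.W) (X : 𝒱.Obj) (n : ℕ) : Submodule T.W.K (T.W.H (pw X n)) where
  carrier := {x | em T.W ℂ x ∈ Fc T Q X n}
  add_mem' {a b} ha hb := by
    change em T.W ℂ (a + b) ∈ Fc T Q X n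
    rw [em_add]
    exact Submodule.add_mem _ ha hb
  zero_mem' := by
    change em T.W ℂ 0 ∈ Fc T Q X n
    rw [em_zero]
    exact Submodule.zero_mem _
  smul_mem' r a ha := by
    change em T.W ℂ (r • a) ∈ Fc T Q X n
    rw [em_smul]
    exact Submodule.smul_mem _ _ ha


lemma mem_F {n : ℕ} {x : T.W.H (pw X n)} : x ∈ F T Q X n ↔ em T.W ℂ x ∈ Fc T Q X n := Iff.rfl

lemma C_le_F (n : ℕ) : Q.sys.C (pw X n) ≤ F T Q X n := fun c hc _ _ A =>
  A.C_le n (em_mem_base hc)

lemma F_stab : Q.sys.Stab X (F T Q X) := by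
  intro m n f hf x hx Γ _ A
  obtain ⟨z, hz, rfl⟩ := Sys.mem_Op.1 hf
  have h1 : em T.W ℂ (T.W.corr z x) = (CW T).corr (em T.W ℂ z) (em T.W ℂ x) :=
    (emR T.W ℂ).corr z x
  rw [h1]
  exact A.stab m n _ (Sys.Op.corr (em_mem_base hz)) _ (hx Γ A)

lemma even_of_em {x : T.W.H X} (h : em T.W ℂ x ∈ PH (CW T) X 0) : x ∈ PH T.W X 0 := by
  rw [← sum_proj_eq T.W x]
  refine Submodule.sum_mem _ fun i _ => ?_
  rcases Nat.mod_two_eq_zero_or_one i with hi | hi
  · exact PH.of' (by omega) (H914.proj_mem (T.W.isInternal X) i x)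
  · have h1 : em T.W ℂ (H914.proj (T.W.isInternal X) i x) = 0 := by
      rw [em_proj, proj_odd h hi]
    rw [em_injective h1]
    exact Submodule.zero_mem _

lemma F_even (hQ : LeHodge T Q) {n : ℕ} {x : T.W.H (pw X n)} (hx : x ∈ F T Q X n) : x ∈ PH T.W (pw X n) 0 :=
  even_of_em (hx _ (hact hQ X)).1

lemma F_proj {n : ℕ} {x : T.W.H (pw X n)} (hx : x ∈ F T Q X n) (i : ℕ) :
    H914.proj (T.W.isInternal (pw X n)) i x ∈ F T Q X n := by
  intro Γ _ A
  rw [em_proj]
  exact A.proj_mem (hx Γ A) i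

/-- Homogeneous classes of finite type are Hodge classes. -/
lemma F_isHodge (hQ : LeHodge T Q) {n j : ℕ} {x : T.W.H (pw X n)} (hx : x ∈ F T Q X n)
    (hj : x ∈ T.W.gr (pw X n) (2 * j)) : IsHodge T (pw X n) j x :=
  isHodge_of_inv hQ hj (hx _ (hact hQ X))

lemma F_le_hodge (hQ : LeHodge T Q) (n : ℕ) : F T Q X n ≤ (hodgePred T).sys.C (pw X n) := by
  intro x hx
  rw [← sum_proj_eq T.W x]
  refine Submodule.sum_mem _ fun i _ => ?_
  rcases Nat.even_or_odd' i with ⟨j, rfl | rfl⟩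
  · exact ClassPred.sp_of (Q := hodgePred T)
      (F_isHodge hQ (F_proj hx (2 * j)) (H914.proj_mem (T.W.isInternal _) _ x))
  · rw [proj_odd (F_even hQ hx) (by omega)]
    exact Submodule.zero_mem _

/-- A rational class whose powers are generated by finitely many classes is of finite type. -/
lemma mem_F_of_genS {r : ℕ} (c : Fin r → Σ n, T.W.H (pw X n)) {n : ℕ} {x : T.W.H (pw X n)}
    (hx : x ∈ PH T.W (pw X n) 0)
    (h : ∀ m, gp T.W x m ∈ Q.sys.genS X c (ix n m)) : x ∈ F T Q X n := by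
  intro Γ _ A
  refine A.mem_inv_of_genS (fun i => ⟨(c i).1, em T.W ℂ (c i).2⟩) ((emR T.W ℂ).even hx)
    fun m => ?_
  have h1 : em T.W ℂ (gp T.W x m) = gp (CW T) (em T.W ℂ x) m := (emR T.W ℂ).gp x m
  rw [← h1]
  exact (emR T.W ℂ).genS (fun Z c hc => em_mem_base hc) c (h m)

lemma hodge_gl {m n : ℕ} {x : T.W.H (pw X m)} {y : T.W.H (pw X n)}
    (hx : x ∈ (hodgePred T).sys.C (pw X m)) (hy : y ∈ (hodgePred T).sys.C (pw X n)) :
    gl T.W x y ∈ (hodgePred T).sys.C (pw X (m + n + 1)) := gl_mem_C hx hy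

lemma hodge_gp {n : ℕ} {x : T.W.H (pw X n)} (hx : x ∈ (hodgePred T).sys.C (pw X n)) :
    ∀ m, gp T.W x m ∈ (hodgePred T).sys.C (pw X (ix n m))
  | 0 => hx
  | m + 1 => hodge_gl (hodge_gp hx m) hx

lemma mot_le_hodge (hQ : LeHodge T Q) (Z : 𝒱.Obj) : Q.sys.C Z ≤ (hodgePred T).sys.C Z :=
  ClassPred.sys_le (fun h => hQ h) Z

/-- If the index of the Hodge classes is finite, they are of finite type. -/
theorem hodge_le_F (hQ : LeHodge T Q) (hnd : ∀ n, Q.sys.Nondeg (pw X n))
    [Nontrivial (T.W.H X)] {N : ℕ∞}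
    (hN : Q.sys.IsInd X (fun n => (hodgePred T).sys.C (pw X n)) N) (hN' : N ≠ ⊤)
    (n : ℕ) : (hodgePred T).sys.C (pw X n) ≤ F T Q X n := by
  obtain ⟨r, c, -, -, hG⟩ := Sys.ind_generators hnd
    (Sys.stab_of_le (mot_le_hodge hQ)) (fun n => mot_le_hodge hQ _) hN hN'
    (fun n => {c | ∃ j, IsHodge T (pw X n) j c}) fun n => rfl
  intro x hx
  refine mem_F_of_genS c ((hodgePred T).sys.even hx) fun m => ?_
  rw [← hG (ix n m)]
  exact hodge_gp hx m

section Galois

variable (G : GaloisAction Q X)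

/-- The space of the Tate classes. -/
lemma inv_eq_span (n : ℕ) : G.act.inv n = Submodule.span G.V.K {x | ∃ j, G.IsTate n j x} := by
  apply le_antisymm
  · intro x hx
    rw [← sum_proj_eq G.V x]
    refine Submodule.sum_mem _ fun i _ => ?_
    rcases Nat.even_or_odd' i with ⟨j, rfl | rfl⟩
    · exact Submodule.subset_span ⟨j, G.isTate_iff.2
        ⟨H914.proj_mem (G.V.isInternal _) _ x, G.act.proj_mem hx _⟩⟩
    · rw [proj_odd hx.1 (by omega)]
      exact Submodule.zero_mem _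
  · rw [Submodule.span_le]
    rintro x ⟨j, hx⟩
    exact (G.isTate_iff.1 hx).2

lemma finrank_inv (n : ℕ) : finrank G.V.K (G.act.inv n) = G.tateDim n := by
  rw [inv_eq_span]
  rfl

/-- Classes of finite type are Tate classes. -/
lemma F_le_inv (hQ : LeHodge T Q) {n : ℕ} {x : T.W.H (pw X n)} (hx : x ∈ F T Q X n) :
    em T.W G.L x ∈ G.act.inv n := by
  obtain ⟨τ⟩ := G.emb
  obtain ⟨-, Δ, hΔ, h⟩ := hx G.Γ (G.act.up (ratAlg T τ))
  refine ⟨(emR T.W G.L).even (F_even hQ hx), Δ, hΔ, fun g hg => ?_⟩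
  apply psi_injective (ratAlg T τ)
  have h1 := h g hg
  have h2 := G.act.up_B (ratAlg T τ) g n (em T.W G.L x)
  rw [← h2, psi_em]
  exact h1

/-- If the powers of a class are generated by finitely many classes, then it is a linear combination
of classes of finite type. -/
lemma mem_bf_of_genS {L : Type} [Field L] [Algebra T.W.K L] (τ : L →+* ℂ) {r : ℕ}
    (c : Fin r → Σ n, (baseW T.W L).H (pw X n)) {n : ℕ} {x : (baseW T.W L).H (pw X n)}
    (hx : x ∈ PH (baseW T.W L) (pw X n) 0)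
    (h : ∀ m, gp (baseW T.W L) x m ∈ (Q.sys.base L).genS X c (ix n m)) :
    x ∈ Sys.bf L (F T Q X) n := by
  have h1 := mem_span_of_conj (T := T) (Fc T Q X n) τ (w := x) (by
    intro g Γ _ A
    refine A.mem_inv_of_genS (fun i => ⟨(c i).1, psi T.W (ratAlg T (g.toRingHom.comp τ)) _ (c i).2⟩)
      ((psiR (W := T.W) (ratAlg T (g.toRingHom.comp τ))).even hx) fun m => ?_
    have h1 : psi T.W (ratAlg T (g.toRingHom.comp τ)) _ (gp (baseW T.W L) x m) =
        gp (CW T) (psi T.W (ratAlg T (g.toRingHom.comp τ)) _ x) m :=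
      (psiR (W := T.W) (ratAlg T (g.toRingHom.comp τ))).gp x m
    rw [← h1]
    exact (psiR (W := T.W) (ratAlg T (g.toRingHom.comp τ))).genS
      (fun Z c hc => psi_mem_base _ hc) c (h m))
  refine Submodule.span_le.2 ?_ h1
  rintro _ ⟨c, hc, rfl⟩
  exact Submodule.tmul_mem_baseChange_of_mem (1 : L) (p := F T Q X n) hc

/-- **If the index of the Tate classes is finite, they are the linear combinations of the classes of
finite type.** -/
theorem inv_eq_bf (hQ : LeHodge T Q) (hnd : ∀ n, Q.sys.Nondeg (pw X n))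
    [Nontrivial (T.W.H X)] {N : ℕ∞} (hN : G.SL.IsInd X G.act.inv N) (hN' : N ≠ ⊤)
    (n : ℕ) : G.act.inv n = Sys.bf G.L (F T Q X) n := by
  obtain ⟨τ⟩ := G.emb
  have hnt : Nontrivial (G.V.H X) := Pool.Agent.Y129.nontrivial_base G.L
  apply le_antisymm
  · obtain ⟨r, c, -, -, hG⟩ := Sys.ind_generators (S := G.SL)
      (fun n => (hnd n).base G.L) G.act.stab G.act.C_le hN hN'
      (fun n => (G.act.inv n : Set (G.V.H (pw X n)))) fun n => (Submodule.span_eq _).symm
    intro x hx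
    refine mem_bf_of_genS τ c hx.1 fun m => ?_
    have h1 := G.act.inv_gp hx m
    rw [hG (ix n m)] at h1
    exact h1
  · intro x hx
    refine base_induction (P := fun x : G.L ⊗[T.W.K] T.W.H (pw X n) => x ∈ G.act.inv n)
      ?_ ?_ ?_ hx
    · exact Submodule.zero_mem _
    · intro x y hx hy; exact Submodule.add_mem _ hx hy
    · intro l a ha
      have h1 := tmul_eq (W := T.W) (L := G.L) l a
      have h2 := Submodule.smul_mem (G.act.inv n) (show G.V.K from l) (F_le_inv G hQ ha)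
      exact Eq.mpr (congrArg (fun x => x ∈ G.act.inv n) h1) h2

end Galois

end Pool.Agent.D0H78.QT
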