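import Pool.Agent.D0H78.QT.Fin
import Pool.Agent.D0H78.MT.Fin2

/-!
# The index laws over a nondegenerate system of Hodge classes
-/

open CategoryTheory AlgebraicGeometry TensorProduct Filter Topology

open scoped ENNReal

universe u v w

namespace Pool.Agent.D0H78.QT

open Module
open Pool.Agent.H914 Pool.Agent.H914.VarClass Pool.Agent.H914.VarClass.Obj
  Pool.Agent.H914.WeilCohomology Pool.Agent.Y133.Half Pool.Agent.Y121.AH
open Pool.Agent.D0H78.MT hiding GaloisAction IsUniversal SC hact gz_fix isHodge_of_inv Fc F mem_F C_le_F F_stab F_even F_proj F_isHodge F_le_hodge mem_F_of_genS hodge_le_F inv_eq_span finrank_inv F_le_inv mem_bf_of_genS inv_eq_bf hodgeAction isHodge_of_tate Uni F_le_Uni C_le_Uni Uni_stab Uni_even Uni_proj mem_Uni_iff Uni_isHodge Uni_eq_span Uni_le_hodge mot_le_hodge uni_law hodge_law tate_law mem_span_hom spanned_iff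

variable {k : Type u} [Field k] {𝒱 : VarClass k} {ops : CycleOps 𝒱} {T : HodgeTheory ops}
  {Q : ClassPred T.W} {X Y : 𝒱.Obj}

/-- The action of `ℤ` given by the Hodge decomposition. -/
noncomputable def hodgeAction (hQ : LeHodge T Q) (X : 𝒱.Obj) : GaloisAction Q X where
  L := ℂ
  field := inferInstance
  alg := T.alg
  emb := ⟨RingHom.id ℂ⟩
  Γ := Multiplicative ℤ
  group := inferInstance
  χ := 1
  ρ n :=
    { toFun := fun g => gze T (Multiplicative.toAdd g) (pw X n)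
      map_one' := by
        apply AlgEquiv.ext
        intro x
        exact gz_zero x
      map_mul' := fun g h => by
        apply AlgEquiv.ext
        intro x
        exact gz_add _ _ x }
  degree g n i x hx := gz_gr _ hx
  trace g n x := by
    rw [MonoidHom.one_apply, Units.val_one, one_pow, one_mul]
    exact tr_gz _ x
  proj g n p _ x := gz_map _ p x
  classes g n j c hc := by
    rw [MonoidHom.one_apply, Units.val_one, one_pow, one_smul]
    exact gz_hodge _ (hQ hc)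

/-- A rational class which is a Tate class for the action given by the Hodge decomposition is a Hodge
class. -/
lemma isHodge_of_tate (hQ : LeHodge T Q) {n j : ℕ} {c : T.W.H (pw X n)}
    (h : (hodgeAction hQ X).IsTate n j (ext T.W ℂ c)) : IsHodge T (pw X n) j c := by
  obtain ⟨hc, Δ, hΔ, h⟩ := h
  have hc' : c ∈ T.W.gr (pw X n) (2 * j) := mem_of_em_mem (L := ℂ) hc
  refine ⟨hc', ?_⟩
  have key : ∀ Δ : Subgroup (Multiplicative ℤ),
      (Multiplicative.ofAdd (1 : ℤ)) ^ Δ.index ∈ Δ := fun Δ => Subgroup.pow_index_mem Δ _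
  have h1 : (Multiplicative.ofAdd (1 : ℤ)) ^ Δ.index ∈ Δ := key Δ
  have h2 := h _ h1
  have h3 : Multiplicative.toAdd ((Multiplicative.ofAdd (1 : ℤ)) ^ Δ.index) = (Δ.index : ℤ) := by
    rw [toAdd_pow]
    simp
  have h4 : gz T (Δ.index : ℤ) (pw X n) (em T.W ℂ c) = em T.W ℂ c := by
    rw [← h3]
    refine Eq.trans h2 ?_
    change ((1 : Multiplicative ℤ →* (CW T).Kˣ) _ : (CW T).K) ^ j • em T.W ℂ c = em T.W ℂ c
    rw [MonoidHom.one_apply, Units.val_one, one_pow, one_smul]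
  exact pq_of_fixz (by exact_mod_cast hΔ.index_ne_zero) (T.dec.span hc') h4

/-- The classes which are Tate classes for all actions. -/
def Uni (T : HodgeTheory ops) (Q : ClassPred T.W) (X : 𝒱.Obj) (n : ℕ) : Submodule T.W.K (T.W.H (pw X n)) where
  carrier := {x | ∀ G : GaloisAction Q X, em T.W G.L x ∈ G.act.inv n}
  add_mem' {a b} ha hb G := by
    rw [em_add]
    exact Submodule.add_mem _ (ha G) (hb G)
  zero_mem' G := by
    rw [em_zero]
    exact Submodule.zero_mem _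
  smul_mem' r a ha G := by
    rw [em_smul]
    exact Submodule.smul_mem _ _ (ha G)

lemma F_le_Uni (hQ : LeHodge T Q) (n : ℕ) : F T Q X n ≤ Uni T Q X n := fun _ hx G => F_le_inv G hQ hx

lemma C_le_Uni (hQ : LeHodge T Q) (n : ℕ) : Q.sys.C (pw X n) ≤ Uni T Q X n :=
  (C_le_F n).trans (F_le_Uni hQ n)

lemma Uni_stab : Q.sys.Stab X (Uni T Q X) := by
  intro m n f hf x hx G
  obtain ⟨z, hz, rfl⟩ := Sys.mem_Op.1 hf
  have h1 : em T.W G.L (T.W.corr z x) = G.V.corr (em T.W G.L z) (em T.W G.L x) :=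
    (emR T.W G.L).corr z x
  rw [h1]
  exact G.act.stab m n _ (Sys.Op.corr (em_mem_base hz)) _ (hx G)

lemma Uni_even (hQ : LeHodge T Q) {n : ℕ} {x : T.W.H (pw X n)} (hx : x ∈ Uni T Q X n) : x ∈ PH T.W (pw X n) 0 :=
  even_of_em (hx (hodgeAction hQ X)).1

lemma Uni_proj {n : ℕ} {x : T.W.H (pw X n)} (hx : x ∈ Uni T Q X n) (i : ℕ) :
    H914.proj (T.W.isInternal (pw X n)) i x ∈ Uni T Q X n := by
  intro G
  rw [em_proj]
  exact G.act.proj_mem (hx G) i

/-- The homogeneous members. -/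
lemma mem_Uni_iff (hQ : LeHodge T Q) {n j : ℕ} {x : T.W.H (pw X n)} :
    (x ∈ T.W.gr (pw X n) (2 * j) ∧ x ∈ Uni T Q X n) ↔
      ∀ G : GaloisAction Q X, G.IsTate n j (ext T.W G.L x) := by
  constructor
  · rintro ⟨hj, hx⟩ G
    exact G.isTate_iff.2 ⟨em_gr hj, hx G⟩
  · intro h
    exact ⟨mem_of_em_mem (L := ℂ) (h (hodgeAction hQ X)).1, fun G => (G.isTate_iff.1 (h G)).2⟩

lemma Uni_isHodge (hQ : LeHodge T Q) {n j : ℕ} {x : T.W.H (pw X n)} (hx : x ∈ Uni T Q X n)
    (hj : x ∈ T.W.gr (pw X n) (2 * j)) : IsHodge T (pw X n) j x :=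
  isHodge_of_tate hQ ((mem_Uni_iff hQ).1 ⟨hj, hx⟩ (hodgeAction hQ X))

/-- The space is spanned by the homogeneous members. -/
lemma Uni_eq_span (hQ : LeHodge T Q) (n : ℕ) : Uni T Q X n = Submodule.span T.W.K
    {x | ∃ j, ∀ G : GaloisAction Q X, G.IsTate n j (ext T.W G.L x)} := by
  apply le_antisymm
  · intro x hx
    rw [← sum_proj_eq T.W x]
    refine Submodule.sum_mem _ fun i _ => ?_
    rcases Nat.even_or_odd' i with ⟨j, rfl | rfl⟩
    · exact Submodule.subset_span ⟨j, (mem_Uni_iff hQ).1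
        ⟨H914.proj_mem (T.W.isInternal _) _ x, Uni_proj hx _⟩⟩
    · rw [proj_odd (Uni_even hQ hx) (by omega)]
      exact Submodule.zero_mem _
  · rw [Submodule.span_le]
    rintro x ⟨j, hx⟩
    exact ((mem_Uni_iff hQ).2 hx).2

lemma Uni_le_hodge (hQ : LeHodge T Q) (n : ℕ) : Uni T Q X n ≤ (hodgePred T).sys.C (pw X n) := by
  rw [Uni_eq_span hQ, Submodule.span_le]
  rintro x ⟨j, hx⟩
  have h := (mem_Uni_iff hQ).2 hx
  exact ClassPred.sp_of (Q := hodgePred T) (Uni_isHodge hQ h.2 h.1)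

section Law

variable (hQ : LeHodge T Q) (X : 𝒱.Obj) [Nontrivial (T.W.H X)]
  (hnd : ∀ n, Q.sys.Nondeg (pw X n))

include hQ hnd in
/-- The index of the universal classes. -/
theorem uni_law : ∃ c : ℕ∞, 1 ≤ c ∧
    HasIndex (fun n => finrank T.W.K (Uni T Q X n)) (fun n => dimBy T.W Q.P (pw X n))
      c ∧ (c = 1 ↔ ∀ n, Uni T Q X n = Q.sys.C (pw X n)) ∧
    (c ≠ ⊤ → ∃ (r : ℕ) (d : Fin r → Σ m, T.W.H (pw X m)), (r : ℕ∞) + 1 ≤ c ∧
      (∀ i, ∃ j, ∀ G : GaloisAction Q X, G.IsTate (d i).1 j (ext T.W G.L (d i).2)) ∧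
      ∀ n, Uni T Q X n = Q.sys.genS X d n) := by
  obtain ⟨c, h1, h2, -, h4⟩ := Sys.stab_index hnd Uni_stab
    (C_le_Uni hQ)
  refine ⟨c, h1, h2, h4, fun hc => ?_⟩
  exact Sys.ind_generators hnd Uni_stab
    (C_le_Uni hQ) h2 hc
    (fun n => {x | ∃ j, ∀ G : GaloisAction Q X, G.IsTate n j (ext T.W G.L x)}) (Uni_eq_span hQ)

include hQ hnd in
/-- The index of the Hodge classes. -/
theorem hodge_law {c : ℕ∞}
    (hc : HasIndex (fun n => finrank T.W.K (Uni T Q X n))
      (fun n => dimBy T.W Q.P (pw X n)) c) : ∃ N : ℕ∞, 1 ≤ N ∧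
    HasIndex (fun n => dimBy T.W (IsHodge T) (pw X n))
      (fun n => dimBy T.W Q.P (pw X n)) N ∧ (N = c ∨ N = ⊤) ∧
    (N = 1 ↔ ∀ n j x, IsHodge T (pw X n) j x → Q.P (pw X n) j x) ∧
    (N ≠ ⊤ → ∀ n, (hodgePred T).sys.C (pw X n) = Uni T Q X n) := by
  obtain ⟨N, h1, h2, -, h4⟩ := Sys.stab_index hnd
    (Sys.stab_of_le (mot_le_hodge hQ) (X := X)) (fun n => mot_le_hodge hQ _)
  have key : N ≠ ⊤ → ∀ n, (hodgePred T).sys.C (pw X n) = Uni T Q X n := fun hN n =>
    le_antisymm ((hodge_le_F hQ hnd h2 hN n).trans (F_le_Uni hQ n)) (Uni_le_hodge hQ n)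
  refine ⟨N, h1, h2, ?_, ?_, key⟩
  · by_cases hN : N = ⊤
    · exact Or.inr hN
    · left
      have h5 : HasIndex (fun n => finrank T.W.K (Uni T Q X n))
          (fun n => dimBy T.W Q.P (pw X n)) N := by
        have h6 : (fun n => finrank T.W.K (Uni T Q X n)) =
            fun n => finrank T.W.K ((hodgePred T).sys.C (pw X n)) := by
          funext n
          rw [key hN n]
        rw [h6]
        exact h2
      exact HasIndex.unique h5 hc
  · rw [h4]
    exact forall_congr' fun n => ClassPred.sys_eq_iff (fun h => hQ h) (pw X n)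

variable {X} (G : GaloisAction Q X)

include hQ hnd in
/-- The index of the Tate classes. -/
theorem tate_law {c : ℕ∞}
    (hc : HasIndex (fun n => finrank T.W.K (Uni T Q X n))
      (fun n => dimBy T.W Q.P (pw X n)) c) : ∃ N : ℕ∞, 1 ≤ N ∧
    HasIndex G.tateDim (fun n => dimBy T.W Q.P (pw X n)) N ∧ (N = c ∨ N = ⊤) ∧
    (N = 1 ↔ ∀ n, G.act.inv n = G.SL.C (pw X n)) ∧
    (N ≠ ⊤ → ∀ n, G.act.inv n = Sys.bf G.L (Uni T Q X) n) := by
  have hnt : Nontrivial (G.V.H X) := Pool.Agent.Y129.nontrivial_base G.L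
  obtain ⟨N, h1, h2, -, h4⟩ := Sys.stab_index (S := G.SL)
    (fun n => (hnd n).base G.L) G.act.stab G.act.C_le
  have e1 : ∀ n, finrank G.V.K (G.SL.C (pw X n)) = dimBy T.W Q.P (pw X n) :=
    fun n => Sys.finrank_base G.L (pw X n)
  have h2' : HasIndex G.tateDim (fun n => dimBy T.W Q.P (pw X n)) N := by
    have h3 := h2
    rw [Sys.IsInd] at h3
    simp only [e1, finrank_inv] at h3
    exact h3
  have hle : ∀ n, Sys.bf G.L (Uni T Q X) n ≤ G.act.inv n := by
    intro n x hx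
    refine base_induction (P := fun x : G.L ⊗[T.W.K] T.W.H (pw X n) => x ∈ G.act.inv n)
      ?_ ?_ ?_ hx
    · exact Submodule.zero_mem _
    · intro x y hx hy; exact Submodule.add_mem _ hx hy
    · intro l a ha
      have h1 := tmul_eq (W := T.W) (L := G.L) l a
      have h2 := Submodule.smul_mem (G.act.inv n) (show G.V.K from l) (ha G)
      exact Eq.mpr (congrArg (fun x => x ∈ G.act.inv n) h1) h2
  have key : N ≠ ⊤ → ∀ n, G.act.inv n = Sys.bf G.L (Uni T Q X) n := by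
    intro hN n
    refine le_antisymm ?_ (hle n)
    rw [inv_eq_bf G hQ hnd h2 hN n]
    exact Submodule.baseChange_mono G.L (F_le_Uni hQ n)
  refine ⟨N, h1, h2', ?_, h4, key⟩
  by_cases hN : N = ⊤
  · exact Or.inr hN
  · left
    have h5 : HasIndex (fun n => finrank T.W.K (Uni T Q X n))
        (fun n => dimBy T.W Q.P (pw X n)) N := by
      have h6 : (fun n => finrank T.W.K (Uni T Q X n)) = G.tateDim := by
        funext n
        rw [← finrank_inv, key hN n, Sys.finrank_bf]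
      rw [h6]
      exact h2'
    exact HasIndex.unique h5 hc

end Law

end Pool.Agent.D0H78.QT
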