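import Pool.Agent.D0H78.QT.Alg

/-!
# Universal and Tate classes and the Lefschetz operators
-/

open CategoryTheory AlgebraicGeometry TensorProduct Filter Topology

open scoped ENNReal

universe u v w

namespace Pool.Agent.D0H78.QT

open Module
open Pool.Agent.H914 Pool.Agent.H914.VarClass Pool.Agent.H914.VarClass.Obj
  Pool.Agent.H914.WeilCohomology Pool.Agent.Y133.Half Pool.Agent.Y121.AH Pool.Agent.H281R3.HT
  Pool.Agent.W458.MF Pool.Agent.W536.RR
open Pool.Agent.D0H78.MT hiding GaloisAction IsUniversal SC hact gz_fix isHodge_of_inv Fc F mem_F C_le_F F_stab F_even F_proj F_isHodge F_le_hodge mem_F_of_genS hodge_le_F inv_eq_span finrank_inv F_le_inv mem_bf_of_genS inv_eq_bf hodgeAction isHodge_of_tate Uni F_le_Uni C_le_Uni Uni_stab Uni_even Uni_proj mem_Uni_iff Uni_isHodge Uni_eq_span Uni_le_hodge mot_le_hodge uni_law hodge_law tate_law mem_span_hom spanned_iff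

variable {k : Type u} [Field k] {𝒱 : VarClass k} {ops : CycleOps 𝒱} {T : HodgeTheory ops}

/-- The embedding of the rational coefficients. -/
noncomputable def ratReal (T : HodgeTheory ops) : T.W.K →+* ℝ :=
  (algebraMap ℚ ℝ).comp (RingEquiv.ofBijective (Rat.castHom T.W.K)
    ⟨RingHom.injective _, fun r => ⟨_, (T.rat r).choose_spec⟩⟩).symm.toRingHom

lemma nondeg_of_lift {X : 𝒱.Obj} (H : ∀ D : X.Cycles, X.IsCyc 1 D → HardLefschetz T.W X D →
    ∀ j, 2 * j ≤ X.dim → ∀ x ∈ T.W.gr X (2 * j),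
      (algPred T.W).P X (X.dim - j) (T.W.cl X D ^ (X.dim - 2 * j) * x) →
        (algPred T.W).P X j x) : (algPred T.W).sys.Nondeg X := by
  let _ : Algebra T.W.K ℝ := (ratReal T).toAlgebra
  obtain ⟨D, hD⟩ := T.dec.polar X
  have hHR : (algPred T.W).HR X D :=
    { cyc := hD.1
      lift := fun j hj v hv => by
        have h0 : v ∈ T.W.gr X (2 * X.dim - 2 * j) := by
          have := (algPred T.W).gr hv
          rwa [show 2 * (X.dim - j) = 2 * X.dim - 2 * j by omega] at this
        obtain ⟨x, hx, hxv⟩ := Y121.AH.hl_surj hD.2.1 hj h0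
        exact ⟨x, H D hD.1 hD.2.1 j hj x hx (by rw [hxv]; exact hv), hxv⟩
      pos := fun j hj x hx hp hne => by
        obtain ⟨r, hr, h⟩ := hD.2.2 j hj x (leHodge_alg hx).1 (leHodge_alg hx).2 hp hne
        have h1 := congrArg (algebraMap T.W.K ℝ) h
        rw [map_mul, map_pow, map_neg, map_one, map_ratCast] at h1
        rw [h1]
        exact_mod_cast hr }
  exact hHR.nondeg

lemma em_pow (W : WeilCohomology.{u, 0} ops) (L : Type) [Field L] [Algebra W.K L] {X : 𝒱.Obj}
    (a : W.H X) (m : ℕ) : em W L (a ^ m) = em W L a ^ m := by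
  induction m with
  | zero => rw [pow_zero, pow_zero]; rfl
  | succ m ih => rw [pow_succ, pow_succ, em_mul, ih]

/-- The inverses of the Lefschetz isomorphisms preserve the Tate classes. -/
lemma tate_of_lift {Q : ClassPred T.W} {X : 𝒱.Obj} (G : GaloisAction Q X) {n j : ℕ}
    (hj : 2 * j ≤ (pw X n).dim) {D : (pw X n).Cycles} (hD : (pw X n).IsCyc 1 D)
    (hL : HardLefschetz T.W (pw X n) D) {x : T.W.H (pw X n)}
    (hx : x ∈ T.W.gr (pw X n) (2 * j))
    (hv : Q.P (pw X n) ((pw X n).dim - j) (T.W.cl (pw X n) D ^ ((pw X n).dim - 2 * j) * x)) :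
    G.IsTate n j (ext T.W G.L x) := by
  refine ⟨em_gr hx, ⊤, inferInstance, fun g _ => ?_⟩
  set d := (pw X n).dim with hd
  obtain ⟨w, hw⟩ : ∃ w : G.V.H (pw X n), w = G.V.cl (pw X n) D := ⟨_, rfl⟩
  have hw' : em T.W G.L (T.W.cl (pw X n) D) = w := hw.symm
  have h1 : G.ρ n g (w ^ (d - 2 * j) * em T.W G.L x) =
      (G.χ g : G.V.K) ^ (d - j) • (w ^ (d - 2 * j) * em T.W G.L x) := by
    have h2 := G.classes g n (d - j) _ hv
    have h3 : ext T.W G.L (T.W.cl (pw X n) D ^ (d - 2 * j) * x) =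
        w ^ (d - 2 * j) * em T.W G.L x := by
      change em T.W G.L _ = _
      rw [em_mul, em_pow, hw']
    rw [h3] at h2
    exact h2
  have h2 : G.ρ n g w = (G.χ g : G.V.K) • w := by
    have h3 := G.classes g n 1 _ (Q.cl hD)
    rw [pow_one] at h3
    have h4 : ext T.W G.L (T.W.cl (pw X n) D) = w := hw'
    rw [h4] at h3
    exact h3
  have h3 : w ^ (d - 2 * j) * (G.ρ n g (em T.W G.L x) -
      (G.χ g : G.V.K) ^ j • em T.W G.L x) = 0 := by
    have hc := G.c_mul_χ g
    have h4 : (G.χ g : G.V.K) ^ (d - 2 * j) • (w ^ (d - 2 * j) * G.ρ n g (em T.W G.L x)) =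
        (G.χ g : G.V.K) ^ (d - 2 * j) • ((G.χ g : G.V.K) ^ j •
          (w ^ (d - 2 * j) * em T.W G.L x)) := by
      rw [smul_smul, ← pow_add, show d - 2 * j + j = d - j by omega, ← h1, map_mul, map_pow, h2,
        smul_pow, smul_mul_assoc]
    have h5 := congrArg (fun y => G.c g ^ (d - 2 * j) • y) h4
    simp only [smul_smul, ← mul_pow, hc, one_pow, one_smul] at h5
    rw [← mul_assoc, ← mul_pow, hc, one_pow, one_mul] at h5
    rw [mul_sub, h5, mul_smul_comm, sub_self]
  have h4 : G.ρ n g (em T.W G.L x) - (G.χ g : G.V.K) ^ j • em T.W G.L x ∈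
      G.V.gr (pw X n) (2 * j) :=
    Submodule.sub_mem _ (G.degree g n _ _ (em_gr hx)) (Submodule.smul_mem _ _ (em_gr hx))
  have h5 : G.ρ n g (em T.W G.L x) - (G.χ g : G.V.K) ^ j • em T.W G.L x = 0 := by
    refine Y121.AH.hl_inj (W := G.V) (base_hardLefschetz (L := G.L) hD hL) hj h4 ?_
    rw [← hw]
    exact h3
  exact sub_eq_zero.1 h5

/-- If the universal classes are algebraic, then homological equivalence is numerical
equivalence. -/
lemma homEqNum_of_universal {X : 𝒱.Obj}
    (h : ∀ n j x, IsUniversal (algPred T.W) X n j x → (algPred T.W).P (pw X n) j x) (n : ℕ) :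
    HomEqNum T.W (pw X n) :=
  homEqNum_of_nondeg (nondeg_of_lift fun _ hD hL _ hj _ hx hv =>
    h _ _ _ fun G => tate_of_lift G hj hD hL hx hv)

/-- If the Hodge classes are algebraic, then homological equivalence is numerical
equivalence. -/
lemma homEqNum_of_hodge {X : 𝒱.Obj}
    (h : ∀ n j x, IsHodge T (pw X n) j x → (algPred T.W).P (pw X n) j x) (n : ℕ) :
    HomEqNum T.W (pw X n) :=
  homEqNum_of_universal (fun n j x hx => h n j x (hodge_of_universal leHodge_alg hx)) n

/-- Descent of the coefficients. -/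
lemma of_span {X : 𝒱.Obj} {j : ℕ} {L : Type} [Field L] [Algebra T.W.K L] {x : T.W.H X}
    (h : em T.W L x ∈ Submodule.span (baseW T.W L).K
      {y | ∃ c, (algPred T.W).P X j c ∧ em T.W L c = y}) : (algPred T.W).P X j x := by
  let p : Submodule T.W.K (T.W.H X) := algSpan T.W X ⊓ T.W.gr X (2 * j)
  have h1 : (Submodule.span (baseW T.W L).K
      {y | ∃ c, (algPred T.W).P X j c ∧ em T.W L c = y} : Set ((baseW T.W L).H X)) ⊆
        (p.baseChange L : Set (L ⊗[T.W.K] T.W.H X)) := by
    have h2 : Submodule.span (baseW T.W L).K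
      {y | ∃ c, (algPred T.W).P X j c ∧ em T.W L c = y} ≤
        (show Submodule (baseW T.W L).K ((baseW T.W L).H X) from p.baseChange L) := by
      rw [Submodule.span_le]
      rintro _ ⟨c, hc, rfl⟩
      exact Submodule.tmul_mem_baseChange_of_mem (1 : L) (p := p) hc
    exact h2
  exact mem_of_em_mem (L := L) (p := p) (h1 h)

/-- If the Tate classes are algebraic, then homological equivalence is numerical equivalence. -/
lemma homEqNum_of_tate {X : 𝒱.Obj} (G : GaloisAction (algPred T.W) X)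
    (h : G.TateAre fun n j x => (algPred T.W).P (pw X n) j x) (n : ℕ) :
    HomEqNum T.W (pw X n) :=
  homEqNum_of_nondeg (nondeg_of_lift fun _ hD hL _ hj _ hx hv =>
    of_span (L := G.L) ((h _ _ _).1 (tate_of_lift G hj hD hL hx hv)))

end Pool.Agent.D0H78.QT
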